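import Pool.Agent.Helper68.ES.St2

/-!
# Module CHX of project ES (MP_cb927e_an): charges from hits
-/

set_option autoImplicit false

open MeasureTheory Set Filter Topology
open scoped ENNReal RealInnerProductSpace

namespace Pool.Agent.Helper34.ES

open Pool.Agent.Helper68.ES Pool.Agent.Helper68.EP Pool.Agent.Helper20.RG
open Pool.Agent.Helper20.RL (RQ Rich BM Fml Hit)
open Pool.Agent.Helper68.LM (Pl BB Bd Av HL ft fm DQ)

/-- the index of the cell of `z` -/
noncomputable def ix (s : ℝ) (a b : ℤ) (z : Pl) : ℤ × ℤ :=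
  (⌊z 0 / (2 : ℝ) ^ a⌋, ⌊pr s z / (2 : ℝ) ^ b⌋)

/-- the cell with index `c` -/
def cl (s : ℝ) (a b : ℤ) (c : ℤ × ℤ) : Set Pl := {z | ix s a b z = c}

/-- the neighbourhood of the cell `c`, translated by `w` -/
def Nb (s : ℝ) (a b : ℤ) (w : Pl) (c : ℤ × ℤ) : Set Pl :=
  {x | |(ix s a b (x - w)).1 - c.1| ≤ 3 ∧ |(ix s a b (x - w)).2 - c.2| ≤ 2}

theorem mem_cl (s : ℝ) (a b : ℤ) (c : ℤ × ℤ) (z : Pl) : z ∈ cl s a b c ↔ ix s a b z = c := Iff.rfl

theorem RQ_eq (s : ℝ) (a b : ℤ) (y : Pl) : RQ s a b y = cl s a b (ix s a b y) := by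
  ext z
  constructor
  · intro h
    exact Prod.ext h.1 h.2
  · intro h
    exact ⟨congrArg Prod.fst h, congrArg Prod.snd h⟩

theorem co_meas (i : Fin 2) : Measurable (fun z : Pl => z i) := by
  have h : Continuous (fun z : Pl => z i) := (EuclideanSpace.proj (𝕜 := ℝ) i).continuous
  exact h.measurable

theorem ix_meas (s : ℝ) (a b : ℤ) : Measurable (ix s a b) := by
  unfold ix pr
  have h0 := co_meas 0
  have h1 := co_meas 1
  refine Measurable.prodMk ?_ ?_
  · exact Int.measurable_floor.comp (h0.div_const _)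
  · exact Int.measurable_floor.comp ((h1.sub (h0.const_mul s)).div_const _)

theorem cl_meas (s : ℝ) (a b : ℤ) (c : ℤ × ℤ) : MeasurableSet (cl s a b c) :=
  ix_meas s a b (measurableSet_singleton c)

theorem Nb_meas (s : ℝ) (a b : ℤ) (w : Pl) (c : ℤ × ℤ) : MeasurableSet (Nb s a b w c) := by
  have h : Measurable (fun x : Pl => ix s a b (x - w)) := (ix_meas s a b).comp (measurable_id.sub_const w)
  have : Nb s a b w c = (fun x : Pl => ix s a b (x - w)) ⁻¹'
      {d | |d.1 - c.1| ≤ 3 ∧ |d.2 - c.2| ≤ 2} := rfl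
  rw [this]
  exact h (Set.to_countable _).measurableSet

theorem cl_vol (hLGR : Pool.Agent.Helper20.RL.StLGR) (s : ℝ) (a b : ℤ) (c : ℤ × ℤ) :
    volume (cl s a b c) ≤ ENNReal.ofReal ((2 : ℝ) ^ (a + b)) := by
  by_cases h : (cl s a b c).Nonempty
  · obtain ⟨z, hz⟩ := h
    have h1 : cl s a b c = RQ s a b z := by rw [RQ_eq, (mem_cl s a b c z).1 hz]
    rw [h1, (hLGR.1 s a b z).2.1]
  · rw [Set.not_nonempty_iff_eq_empty.1 h]
    simp

/-- the box of the differences -/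
noncomputable def bxd : Finset (ℤ × ℤ) := Finset.Icc (-3 : ℤ) 3 ×ˢ Finset.Icc (-2 : ℤ) 2

theorem bxd_card : bxd.card = 35 := by
  unfold bxd
  rw [Finset.card_product]
  simp

theorem Nb_vol (hLGR : Pool.Agent.Helper20.RL.StLGR) (s : ℝ) (a b : ℤ) (w : Pl) (c : ℤ × ℤ) :
    volume (Nb s a b w c) ≤ 35 * ENNReal.ofReal ((2 : ℝ) ^ (a + b)) := by
  have h1 : Nb s a b w c ⊆ ⋃ d ∈ bxd, (fun x : Pl => x + (-w)) ⁻¹' cl s a b (c.1 + d.1, c.2 + d.2) := by
    intro x hx
    obtain ⟨hx1, hx2⟩ := hx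
    rw [Set.mem_iUnion₂]
    refine ⟨((ix s a b (x - w)).1 - c.1, (ix s a b (x - w)).2 - c.2), ?_, ?_⟩
    · unfold bxd
      rw [Finset.mem_product, Finset.mem_Icc, Finset.mem_Icc]
      exact ⟨abs_le.1 hx1, abs_le.1 hx2⟩
    · rw [Set.mem_preimage, mem_cl, ← sub_eq_add_neg]
      ext <;> simp
  refine (measure_mono h1).trans ((measure_biUnion_finset_le _ _).trans ?_)
  have h2 : ∀ d ∈ bxd, volume ((fun x : Pl => x + (-w)) ⁻¹' cl s a b (c.1 + d.1, c.2 + d.2)) ≤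
      ENNReal.ofReal ((2 : ℝ) ^ (a + b)) := by
    intro d _
    rw [measure_preimage_add_right]
    exact cl_vol hLGR s a b _
  refine (Finset.sum_le_sum h2).trans ?_
  rw [Finset.sum_const, bxd_card]
  simp

/-- integral of a function which is constant on cells -/
theorem cell_int (s : ℝ) (a b : ℤ) (G S : Set Pl) (hG : MeasurableSet G)
    (W : ℤ × ℤ → ℝ≥0∞) :
    ∫⁻ z in S, G.indicator (fun z => W (ix s a b z)) z = ∑' c, W c * volume (G ∩ cl s a b c ∩ S) := by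
  have hU : (⋃ c, cl s a b c) = univ := by
    ext z
    simp [mem_cl]
  have hd : Pairwise (Function.onFun Disjoint (cl s a b)) := by
    intro c c' hcc
    rw [Function.onFun, Set.disjoint_left]
    intro z h1 h2
    exact hcc (h1.symm.trans h2)
  have h1 : ∫⁻ z in S, G.indicator (fun z => W (ix s a b z)) z =
      ∫⁻ z in ⋃ c, cl s a b c, G.indicator (fun z => W (ix s a b z)) z ∂(volume.restrict S) := by
    rw [hU, Measure.restrict_univ]
  rw [h1, lintegral_iUnion (cl_meas s a b) hd]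
  congr 1
  ext c
  have h2 : ∫⁻ z in cl s a b c, G.indicator (fun z => W (ix s a b z)) z ∂(volume.restrict S) =
      ∫⁻ z in cl s a b c, G.indicator (fun _ => W c) z ∂(volume.restrict S) := by
    refine setLIntegral_congr_fun (cl_meas s a b c) ?_
    intro z hz
    by_cases hzG : z ∈ G
    · simp only [Set.indicator_of_mem hzG]
      rw [(mem_cl s a b c z).1 hz]
    · simp only [Set.indicator_of_notMem hzG]
  rw [h2, lintegral_indicator_const hG, Measure.restrict_apply hG,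
    Measure.restrict_apply (hG.inter (cl_meas s a b c))]

theorem ennreal_alg (v M V : ℝ≥0∞) (hM : M ≠ 0) (hM' : M ≠ ∞) (hV : V ≠ 0) (hV' : V ≠ ∞) :
    v / (M * V) * V = M⁻¹ * v := by
  rw [div_eq_mul_inv, ENNReal.mul_inv (Or.inl hM) (Or.inl hM')]
  rw [mul_assoc, mul_assoc, ENNReal.inv_mul_cancel hV hV', mul_one, mul_comm]

section one

variable (s : ℝ) (a b : ℤ) (w : Pl) (θ m : ℝ) (G X : Set Pl)

/-- rich cell -/
def Rc' (c : ℤ × ℤ) : Prop := ENNReal.ofReal (θ * (2 : ℝ) ^ (a + b)) ≤ volume (G ∩ cl s a b c)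

/-- the set of hits -/
def Hc : Set Pl := {x | ∃ c, Rc' s a b θ G c ∧ x ∈ Nb s a b w c}

open Classical in
/-- the value of the charge -/
noncomputable def Wc' (c : ℤ × ℤ) : ℝ≥0∞ :=
  if Rc' s a b θ G c then volume (X ∩ Nb s a b w c) / (ENNReal.ofReal m * volume (G ∩ cl s a b c)) else 0

/-- the charge -/
noncomputable def om (z : Pl) : ℝ≥0∞ := G.indicator (fun z => Wc' s a b w θ m G X (ix s a b z)) z

theorem Hc_meas : MeasurableSet (Hc s a b w θ G) := by
  have h : Hc s a b w θ G = ⋃ c ∈ {c | Rc' s a b θ G c}, Nb s a b w c := by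
    ext x
    simp [Hc]
  rw [h]
  exact MeasurableSet.biUnion (Set.to_countable _) (fun c _ => Nb_meas s a b w c)

theorem Wc_le (hLGR : Pool.Agent.Helper20.RL.StLGR) (hθ : 0 < θ) (hm : 0 < m) (c : ℤ × ℤ) :
    Wc' s a b w θ m G X c ≤ ENNReal.ofReal (35 / (m * θ)) := by
  unfold Wc'
  split_ifs with h
  · refine ENNReal.div_le_of_le_mul ?_
    have hp : (0 : ℝ) < (2 : ℝ) ^ (a + b) := by positivity
    calc volume (X ∩ Nb s a b w c) ≤ volume (Nb s a b w c) := measure_mono inter_subset_right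
      _ ≤ 35 * ENNReal.ofReal ((2 : ℝ) ^ (a + b)) := Nb_vol hLGR s a b w c
      _ = ENNReal.ofReal (35 / (m * θ)) * (ENNReal.ofReal m * ENNReal.ofReal (θ * (2 : ℝ) ^ (a + b))) := by
          rw [← ENNReal.ofReal_mul hm.le, ← ENNReal.ofReal_mul (by positivity)]
          have : (35 : ℝ≥0∞) = ENNReal.ofReal 35 := by
            rw [ENNReal.ofReal_ofNat]
          rw [this, ← ENNReal.ofReal_mul (by norm_num)]
          congr 1
          field_simp
      _ ≤ _ := by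
          gcongr
          exact h
  · exact bot_le

theorem mult_le (x : Pl) (R : ℤ × ℤ → Prop) [DecidablePred R] :
    (∑' c, if R c then (Nb s a b w c).indicator (1 : Pl → ℝ≥0∞) x else 0) ≤
      35 * {x | ∃ c, R c ∧ x ∈ Nb s a b w c}.indicator (1 : Pl → ℝ≥0∞) x := by
  by_cases hx : x ∈ {x | ∃ c, R c ∧ x ∈ Nb s a b w c}
  · rw [Set.indicator_of_mem hx]
    set F : Finset (ℤ × ℤ) := bxd.image (fun d => ((ix s a b (x - w)).1 - d.1, (ix s a b (x - w)).2 - d.2))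
    have h0 : ∀ c ∉ F, (if R c then (Nb s a b w c).indicator (1 : Pl → ℝ≥0∞) x else 0) = 0 := by
      intro c hc
      split_ifs with h
      · refine Set.indicator_of_notMem ?_ _
        intro hN
        refine hc (Finset.mem_image.2 ⟨((ix s a b (x - w)).1 - c.1, (ix s a b (x - w)).2 - c.2), ?_, ?_⟩)
        · unfold bxd
          rw [Finset.mem_product, Finset.mem_Icc, Finset.mem_Icc]
          exact ⟨abs_le.1 hN.1, abs_le.1 hN.2⟩
        · ext <;> simp
      · rfl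
    rw [tsum_eq_sum h0]
    have h1 : ∀ c ∈ F, (if R c then (Nb s a b w c).indicator (1 : Pl → ℝ≥0∞) x else 0) ≤ 1 := by
      intro c _
      split_ifs
      · exact Set.indicator_le_self _ _ _
      · exact bot_le
    refine (Finset.sum_le_sum h1).trans ?_
    rw [Finset.sum_const, nsmul_eq_mul, mul_one]
    have h2 : F.card ≤ 35 := by
      rw [← bxd_card]
      exact Finset.card_image_le
    simp only [Pi.one_apply, mul_one]
    exact_mod_cast h2
  · rw [Set.indicator_of_notMem hx, mul_zero]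
    refine le_of_eq (ENNReal.tsum_eq_zero.2 ?_)
    intro c
    split_ifs with h
    · refine Set.indicator_of_notMem ?_ _
      intro hN
      exact hx ⟨c, h, hN⟩
    · rfl

theorem mult_ge (x : Pl) (R : ℤ × ℤ → Prop) [DecidablePred R] :
    {x | ∃ c, R c ∧ x ∈ Nb s a b w c}.indicator (1 : Pl → ℝ≥0∞) x ≤
    (∑' c, if R c then (Nb s a b w c).indicator (1 : Pl → ℝ≥0∞) x else 0) := by
  by_cases hx : x ∈ {x | ∃ c, R c ∧ x ∈ Nb s a b w c}
  · rw [Set.indicator_of_mem hx]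
    obtain ⟨c, hc, hN⟩ := hx
    refine le_trans ?_ (ENNReal.le_tsum c)
    rw [if_pos hc, Set.indicator_of_mem hN]
  · rw [Set.indicator_of_notMem hx]
    exact bot_le

theorem sum_int (Y : Set Pl) (R : ℤ × ℤ → Prop) [DecidablePred R] :
    (∑' c, if R c then volume (Y ∩ Nb s a b w c) else 0) =
      ∫⁻ x in Y, ∑' c, if R c then (Nb s a b w c).indicator (1 : Pl → ℝ≥0∞) x else 0 := by
  rw [lintegral_tsum]
  · congr 1
    ext c
    split_ifs with h
    · rw [lintegral_indicator_one (Nb_meas s a b w c), Measure.restrict_apply (Nb_meas s a b w c),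
        inter_comm]
    · simp
  · intro c
    split_ifs with h
    · exact (measurable_one.indicator (Nb_meas s a b w c)).aemeasurable
    · exact measurable_const.aemeasurable

theorem om_upper (hG : BM G) (hθ : 0 < θ) (hm : 0 < m) (S T : Set Pl)
    (hT : ∀ c z x, z ∈ S → z ∈ cl s a b c → x ∈ Nb s a b w c → x ∈ T) :
    ∫⁻ z in S, om s a b w θ m G X z ≤
      ENNReal.ofReal (35 / m) * ∫⁻ x in X ∩ T, (Hc s a b w θ G).indicator (1 : Pl → ℝ≥0∞) x := by
  classical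
  have hGf : volume G ≠ ∞ := hG.2.measure_lt_top.ne
  unfold om
  rw [cell_int s a b G S hG.1]
  have h1 : ∀ c, Wc' s a b w θ m G X c * volume (G ∩ cl s a b c ∩ S) ≤
      (ENNReal.ofReal m)⁻¹ * (if Rc' s a b θ G c then volume (X ∩ T ∩ Nb s a b w c) else 0) := by
    intro c
    unfold Wc'
    split_ifs with h
    · rcases Set.eq_empty_or_nonempty (G ∩ cl s a b c ∩ S) with he | ⟨z, hz⟩
      · rw [he]; simp
      · have hsub : X ∩ Nb s a b w c ⊆ X ∩ T ∩ Nb s a b w c := fun x hx =>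
          ⟨⟨hx.1, hT c z x hz.2 hz.1.2 hx.2⟩, hx.2⟩
        have hV : volume (G ∩ cl s a b c) ≠ 0 := by
          intro h0
          unfold Rc' at h
          rw [h0] at h
          have : (0 : ℝ) < θ * (2 : ℝ) ^ (a + b) := by positivity
          exact absurd h (not_le.2 (ENNReal.ofReal_pos.2 this))
        have hV' : volume (G ∩ cl s a b c) ≠ ∞ :=
          ne_top_of_le_ne_top hGf (measure_mono inter_subset_left)
        calc volume (X ∩ Nb s a b w c) / (ENNReal.ofReal m * volume (G ∩ cl s a b c)) *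
              volume (G ∩ cl s a b c ∩ S)
            ≤ volume (X ∩ T ∩ Nb s a b w c) / (ENNReal.ofReal m * volume (G ∩ cl s a b c)) *
              volume (G ∩ cl s a b c) := by
              exact mul_le_mul' (ENNReal.div_le_div_right (measure_mono hsub) _)
                (measure_mono inter_subset_left)
          _ = (ENNReal.ofReal m)⁻¹ * volume (X ∩ T ∩ Nb s a b w c) :=
              ennreal_alg _ _ _ (ENNReal.ofReal_pos.2 hm).ne' ENNReal.ofReal_ne_top hV hV'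
    · simp
  refine (ENNReal.tsum_le_tsum h1).trans ?_
  rw [ENNReal.tsum_mul_left, sum_int s a b w (X ∩ T) (Rc' s a b θ G)]
  have h2 : ENNReal.ofReal (35 / m) = (ENNReal.ofReal m)⁻¹ * 35 := by
    rw [div_eq_mul_inv, mul_comm, ENNReal.ofReal_mul (by positivity), ENNReal.ofReal_inv_of_pos hm,
      ENNReal.ofReal_ofNat]
  have h3 : ∫⁻ x in X ∩ T, (∑' c, if Rc' s a b θ G c then (Nb s a b w c).indicator (1 : Pl → ℝ≥0∞) x else 0) ≤
      35 * ∫⁻ x in X ∩ T, (Hc s a b w θ G).indicator (1 : Pl → ℝ≥0∞) x := by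
    rw [← lintegral_const_mul' (35 : ℝ≥0∞) _ (by norm_num)]
    exact lintegral_mono (fun x => mult_le s a b w x (Rc' s a b θ G))
  rw [h2, mul_assoc]
  exact mul_le_mul' le_rfl h3

theorem om_lower (hG : BM G) (hθ : 0 < θ) (hm : 0 < m) :
    ENNReal.ofReal (1 / m) * ∫⁻ x in X, (Hc s a b w θ G).indicator (1 : Pl → ℝ≥0∞) x ≤
      ∫⁻ z, om s a b w θ m G X z := by
  classical
  have hGf : volume G ≠ ∞ := hG.2.measure_lt_top.ne
  have h0 : ∫⁻ z, om s a b w θ m G X z = ∫⁻ z in univ, om s a b w θ m G X z := by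
    rw [Measure.restrict_univ]
  rw [h0]
  unfold om
  rw [cell_int s a b G univ hG.1]
  have h1 : ∀ c, (ENNReal.ofReal m)⁻¹ * (if Rc' s a b θ G c then volume (X ∩ Nb s a b w c) else 0) ≤
      Wc' s a b w θ m G X c * volume (G ∩ cl s a b c ∩ univ) := by
    intro c
    unfold Wc'
    split_ifs with h
    · have hV : volume (G ∩ cl s a b c) ≠ 0 := by
        intro h0
        unfold Rc' at h
        rw [h0] at h
        have : (0 : ℝ) < θ * (2 : ℝ) ^ (a + b) := by positivity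
        exact absurd h (not_le.2 (ENNReal.ofReal_pos.2 this))
      have hV' : volume (G ∩ cl s a b c) ≠ ∞ :=
        ne_top_of_le_ne_top hGf (measure_mono inter_subset_left)
      rw [inter_univ, ennreal_alg _ _ _ (ENNReal.ofReal_pos.2 hm).ne' ENNReal.ofReal_ne_top hV hV']
    · simp
  refine le_trans ?_ (ENNReal.tsum_le_tsum h1)
  rw [ENNReal.tsum_mul_left, sum_int s a b w X (Rc' s a b θ G), one_div, ENNReal.ofReal_inv_of_pos hm]
  exact mul_le_mul' le_rfl (lintegral_mono (fun x => mult_ge s a b w x (Rc' s a b θ G)))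

end one

theorem floor_diff (P t t' : ℝ) (N : ℕ) (hP : 0 < P) (h : |t - t'| ≤ N * P) :
    |⌊t / P⌋ - ⌊t' / P⌋| ≤ (N : ℤ) := by
  have key : ∀ r r' : ℝ, r - r' ≤ N * P → ⌊r / P⌋ - ⌊r' / P⌋ ≤ (N : ℤ) := by
    intro r r' hr
    have h1 : r / P ≤ r' / P + (N : ℕ) := by
      rw [div_add' _ _ _ hP.ne', div_le_div_iff_of_pos_right hP]
      linarith
    have h2 := Int.floor_le_floor h1
    rw [Int.floor_add_natCast] at h2
    linarith
  rw [abs_le] at h ⊢
  exact ⟨by linarith [key t' t (by linarith [h.1])], key t t' h.2⟩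

theorem floor_back (P t t' : ℝ) (N : ℕ) (hP : 0 < P) (h : |⌊t / P⌋ - ⌊t' / P⌋| ≤ (N : ℤ)) :
    |t - t'| ≤ (N + 1) * P := by
  have key : ∀ r r' : ℝ, ⌊r / P⌋ - ⌊r' / P⌋ ≤ (N : ℤ) → r - r' ≤ (N + 1) * P := by
    intro r r' hr
    have h1 := (Int.lt_floor_add_one (r / P)).le
    have h2 := Int.floor_le (r' / P)
    have h3 : ((⌊r / P⌋ : ℤ) : ℝ) - (⌊r' / P⌋ : ℤ) ≤ N := by exact_mod_cast hr
    have h4 : r / P - r' / P ≤ N + 1 := by linarith
    rw [← sub_div, div_le_iff₀ hP] at h4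
    exact h4
  rw [abs_le] at h ⊢
  exact ⟨by linarith [key t' t (by linarith [h.1])], key t t' h.2⟩

theorem pr_sub' (s : ℝ) (x y : Pl) : pr s x - pr s y = (x 1 - y 1) - s * (x 0 - y 0) := by
  unfold pr
  ring

theorem hit_iff (hPT : Pool.Agent.Helper20.RG.StPT) (s : ℝ) (c : Pl) (mm u : ℕ) (k : ℤ) (θ : ℝ)
    (G : Set Pl) (x : Pl) :
    Hit s c mm u k {y | Rich G s (k - (u : ℤ)) (k - (mm : ℤ)) θ y} x ↔
      x ∈ Hc s (k - (u : ℤ)) (k - (mm : ℤ)) ((2 : ℝ) ^ k • c) θ G := by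
  have hP : (0 : ℝ) < (2 : ℝ) ^ (k - (u : ℤ)) := by positivity
  have hQ : (0 : ℝ) < (2 : ℝ) ^ (k - (mm : ℤ)) := by positivity
  constructor
  · rintro ⟨y, hy, h1, h2⟩
    refine ⟨ix s (k - (u : ℤ)) (k - (mm : ℤ)) y, ?_, ?_, ?_⟩
    · unfold Rc'
      rw [← RQ_eq]
      exact hy
    · exact_mod_cast floor_diff _ _ _ 3 hP (by exact_mod_cast h1)
    · exact_mod_cast floor_diff _ _ _ 2 hQ (by exact_mod_cast h2)
  · rintro ⟨d, hd, h1, h2⟩
    set x' := x - (2 : ℝ) ^ k • c with hx'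
    set n := ix s (k - (u : ℤ)) (k - (mm : ℤ)) x' with hn
    set y0 : ℝ := x' 0 - ((n.1 - d.1 : ℤ) : ℝ) * (2 : ℝ) ^ (k - (u : ℤ)) with hy0
    set p0 : ℝ := pr s x' - ((n.2 - d.2 : ℤ) : ℝ) * (2 : ℝ) ^ (k - (mm : ℤ)) with hp0
    have e0 : (pt y0 (p0 + s * y0)) 0 = y0 := (hPT.1 _ _).1
    have e1 : (pt y0 (p0 + s * y0)) 1 = p0 + s * y0 := (hPT.1 _ _).2
    have ep : pr s (pt y0 (p0 + s * y0)) = p0 := by
      unfold pr
      rw [e0, e1]
      ring
    have hix : ix s (k - (u : ℤ)) (k - (mm : ℤ)) (pt y0 (p0 + s * y0)) = d := by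
      unfold ix
      rw [e0, ep]
      have g1 : y0 / (2 : ℝ) ^ (k - (u : ℤ)) = x' 0 / (2 : ℝ) ^ (k - (u : ℤ)) - ((n.1 - d.1 : ℤ) : ℝ) := by
        rw [hy0]; field_simp
      have g2 : p0 / (2 : ℝ) ^ (k - (mm : ℤ)) = pr s x' / (2 : ℝ) ^ (k - (mm : ℤ)) - ((n.2 - d.2 : ℤ) : ℝ) := by
        rw [hp0]; field_simp
      rw [g1, g2, Int.floor_sub_intCast, Int.floor_sub_intCast]
      have g3 : ⌊x' 0 / (2 : ℝ) ^ (k - (u : ℤ))⌋ = n.1 := rfl
      have g4 : ⌊pr s x' / (2 : ℝ) ^ (k - (mm : ℤ))⌋ = n.2 := rfl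
      rw [g3, g4]
      ext <;> simp
    refine ⟨pt y0 (p0 + s * y0), ?_, ?_, ?_⟩
    · show ENNReal.ofReal _ ≤ volume (G ∩ RQ _ _ _ _)
      rw [RQ_eq, hix]
      exact hd
    · rw [e0, hy0]
      have : x' 0 - (x' 0 - ((n.1 - d.1 : ℤ) : ℝ) * (2 : ℝ) ^ (k - (u : ℤ))) =
        ((n.1 - d.1 : ℤ) : ℝ) * (2 : ℝ) ^ (k - (u : ℤ)) := by ring
      rw [this, abs_mul, abs_of_pos hP]
      have h3 : |((n.1 - d.1 : ℤ) : ℝ)| ≤ 3 := by
        rw [← Int.cast_abs]; exact_mod_cast h1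
      exact mul_le_mul_of_nonneg_right h3 hP.le
    · rw [ep, hp0]
      have : pr s x' - (pr s x' - ((n.2 - d.2 : ℤ) : ℝ) * (2 : ℝ) ^ (k - (mm : ℤ))) =
        ((n.2 - d.2 : ℤ) : ℝ) * (2 : ℝ) ^ (k - (mm : ℤ)) := by ring
      rw [this, abs_mul, abs_of_pos hQ]
      have h3 : |((n.2 - d.2 : ℤ) : ℝ)| ≤ 2 := by
        rw [← Int.cast_abs]; exact_mod_cast h2
      exact mul_le_mul_of_nonneg_right h3 hQ.le

theorem ncard_eq (J : Finset ℕ) (H : ℕ → Set Pl) (x : Pl) :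
    ((({j : ℕ | j ∈ J ∧ x ∈ H j}.ncard : ℕ)) : ℝ≥0∞) = ∑ j ∈ J, (H j).indicator (1 : Pl → ℝ≥0∞) x := by
  classical
  have h1 : {j : ℕ | j ∈ J ∧ x ∈ H j} = ((J.filter (fun j => x ∈ H j) : Finset ℕ) : Set ℕ) := by
    ext j; simp
  rw [h1, Set.ncard_coe_finset, Finset.card_filter, Nat.cast_sum]
  refine Finset.sum_congr rfl (fun j _ => ?_)
  by_cases h : x ∈ H j
  · simp [h]
  · simp [h]

theorem geo (hPT : Pool.Agent.Helper20.RG.StPT) (Cf : ℝ) (hCf : 1 ≤ Cf) (s : ℝ) (hs : |s| ≤ 1) (cj : Pl)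
    (hcj : ‖cj‖ ≤ Cf) (u mm : ℕ) (hum : u ≤ mm + 1) (k b : ℤ) (hkb : k ≤ b) (y : Pl) (c : ℤ × ℤ) (z x : Pl)
    (hz : z ∈ DQ b y) (hzc : z ∈ cl s (k - (u : ℤ)) (k - (mm : ℤ)) c)
    (hx : x ∈ Nb s (k - (u : ℤ)) (k - (mm : ℤ)) ((2 : ℝ) ^ k • cj) c) :
    x ∈ Sq y ((Cf + 11) * (2 : ℝ) ^ b) := by
  have hP : (0 : ℝ) < (2 : ℝ) ^ (k - (u : ℤ)) := by positivity
  have hQ : (0 : ℝ) < (2 : ℝ) ^ (k - (mm : ℤ)) := by positivity
  have hK : (0 : ℝ) < (2 : ℝ) ^ k := by positivity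
  have hB : (0 : ℝ) < (2 : ℝ) ^ b := by positivity
  have hKB : (2 : ℝ) ^ k ≤ (2 : ℝ) ^ b := zpow_le_zpow_right₀ (by norm_num) hkb
  have hPK : (2 : ℝ) ^ (k - (u : ℤ)) ≤ (2 : ℝ) ^ k := zpow_le_zpow_right₀ (by norm_num) (by omega)
  have hQK : (2 : ℝ) ^ (k - (mm : ℤ)) ≤ 2 * (2 : ℝ) ^ k := by
    have : (2 : ℝ) ^ (k - (mm : ℤ)) ≤ (2 : ℝ) ^ (k + 1) := zpow_le_zpow_right₀ (by norm_num) (by omega)
    rwa [zpow_add_one₀ (by norm_num), mul_comm] at this
  rw [mem_cl] at hzc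
  obtain ⟨h1, h2⟩ := hx
  rw [← hzc] at h1 h2
  have g1 := floor_back _ _ _ 3 hP (by exact_mod_cast h1)
  have g2 := floor_back _ _ _ 2 hQ (by exact_mod_cast h2)
  rw [pr_sub'] at g2
  have z0 := floor_back _ (z 0) (y 0) 0 hB (by rw [hz 0]; simp)
  have z1 := floor_back _ (z 1) (y 1) 0 hB (by rw [hz 1]; simp)
  have c0 := ((hPT.2.2.1 cj).1).trans hcj
  have c1 := ((hPT.2.2.1 cj).2.1).trans hcj
  have e0 : (x - (2 : ℝ) ^ k • cj) 0 = x 0 - (2 : ℝ) ^ k * cj 0 := by simp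
  have e1 : (x - (2 : ℝ) ^ k • cj) 1 = x 1 - (2 : ℝ) ^ k * cj 1 := by simp
  rw [e0] at g1 g2
  rw [e1] at g2
  have w0 : |(2 : ℝ) ^ k * cj 0| ≤ Cf * (2 : ℝ) ^ k := by
    rw [abs_mul, abs_of_pos hK, mul_comm]
    exact mul_le_mul_of_nonneg_right c0 hK.le
  have w1 : |(2 : ℝ) ^ k * cj 1| ≤ Cf * (2 : ℝ) ^ k := by
    rw [abs_mul, abs_of_pos hK, mul_comm]
    exact mul_le_mul_of_nonneg_right c1 hK.le
  have hCK : Cf * (2 : ℝ) ^ k ≤ Cf * (2 : ℝ) ^ b := mul_le_mul_of_nonneg_left hKB (by linarith)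
  set A : ℝ := x 0 - (2 : ℝ) ^ k * cj 0 - z 0 with hA
  have sA : |s * A| ≤ 4 * (2 : ℝ) ^ k := by
    rw [abs_mul]
    have : |A| ≤ 4 * (2 : ℝ) ^ k := by
      refine g1.trans ?_
      push_cast
      nlinarith
    calc |s| * |A| ≤ 1 * |A| := mul_le_mul_of_nonneg_right hs (abs_nonneg _)
      _ ≤ _ := by rw [one_mul]; exact this
  push_cast at g1 g2 z0 z1
  rw [abs_le] at g1 g2 z0 z1 w0 w1 sA
  constructor
  · rw [abs_le]
    constructor <;> nlinarith [g1.1, g1.2, z0.1, z0.2, w0.1, w0.2]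
  · rw [abs_le]
    constructor <;> nlinarith [g2.1, g2.2, z1.1, z1.2, w1.1, w1.2, sA.1, sA.2]

/-- module CHX -/
theorem hCHX (hPT : Pool.Agent.Helper20.RG.StPT) (hLGR : Pool.Agent.Helper20.RL.StLGR)
    (_hLFM : Pool.Agent.Helper20.RL.StLFM) (_hLGE : Pool.Agent.Helper20.RL.StLGE)
    (hEFB : Pool.Agent.Helper68.EP.StEFB) : Pool.Agent.Helper68.ES.StCHX := by
  classical
  intro Cf hCf
  refine ⟨280 * (Cf + 11) ^ 2, by nlinarith, ?_⟩
  intro p E u q J sl fl cc D θ m hE hJ hD hθ hm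
  have hG : ∀ k : ℤ, BM (Eg E D q k) := fun k =>
    ⟨((hEFB.1 E D _).2.1 hE.1).diff ((hEFB.1 E D _).2.1 hE.1),
      ((hEFB.1 E D (k - ag q)).2.2 hE).2.subset sdiff_subset⟩
  set H : ℤ → ℕ → Set Pl := fun k j =>
    Hc (sl j) (k - (u : ℤ)) (k - (fl j : ℤ)) ((2 : ℝ) ^ k • cc j) θ (Eg E D q k) with hH
  have Hm : ∀ k j, MeasurableSet (H k j) := fun k j => Hc_meas _ _ _ _ _ _
  set ct : ℤ → Pl → ℝ≥0∞ := fun k x => ∑ j ∈ J, (H k j).indicator (1 : Pl → ℝ≥0∞) x with hct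
  have ctm : ∀ k, Measurable (ct k) := fun k =>
    Finset.measurable_sum _ (fun j _ => measurable_one.indicator (Hm k j))
  set X : ℤ → Set Pl := fun k => Xk E u q J sl fl cc D θ m k with hX
  have hXm : ∀ k x, x ∈ X k ↔ ENNReal.ofReal (3 / 4 * m) ≤ ct k x ∧ ct k x < ENNReal.ofReal (2 * m) := by
    intro k x
    have h1 : {j : ℕ | j ∈ J ∧ Hit (sl j) (cc j) (fl j) u k
        {y | Rich (Eg E D q k) (sl j) (k - (u : ℤ)) (k - (fl j : ℤ)) θ y} x} =
        {j : ℕ | j ∈ J ∧ x ∈ H k j} := by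
      ext j
      simp only [mem_ofPred_eq]
      rw [hit_iff hPT]
    have h2 : ct k x = ENNReal.ofReal ((({j : ℕ | j ∈ J ∧ x ∈ H k j}.ncard : ℕ)) : ℝ) := by
      rw [ENNReal.ofReal_natCast, ncard_eq J (H k) x]
    rw [h2, ENNReal.ofReal_le_ofReal_iff (Nat.cast_nonneg _),
      ENNReal.ofReal_lt_ofReal_iff (by positivity)]
    show x ∈ Xk E u q J sl fl cc D θ m k ↔ _
    unfold Xk
    rw [mem_ofPred_eq, h1]
  have Xmeas : ∀ k, MeasurableSet (X k) := by
    intro k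
    have : X k = {x | ENNReal.ofReal (3 / 4 * m) ≤ ct k x} ∩ {x | ct k x < ENNReal.ofReal (2 * m)} := by
      ext x
      exact hXm k x
    rw [this]
    exact (measurableSet_le measurable_const (ctm k)).inter (measurableSet_lt (ctm k) measurable_const)
  -- disjoint version
  set Xd : ℤ → Set Pl := fun k => disjointed (fun n : ℕ => X (Equiv.intEquivNat.symm n))
    (Equiv.intEquivNat k) with hXd
  have XdX : ∀ k, Xd k ⊆ X k := by
    intro k
    have := disjointed_subset (fun n : ℕ => X (Equiv.intEquivNat.symm n)) (Equiv.intEquivNat k)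
    simpa using this
  have Xdm : ∀ k, MeasurableSet (Xd k) := fun k =>
    MeasurableSet.disjointed (fun n => Xmeas _) _
  have Xdd : Pairwise (Function.onFun Disjoint Xd) := by
    intro k k' hk
    exact disjoint_disjointed _ (fun h => hk (Equiv.intEquivNat.injective h))
  have XdU : (⋃ k, Xd k) = ⋃ k, X k := by
    have h1 : (⋃ k, Xd k) = ⋃ n, disjointed (fun n : ℕ => X (Equiv.intEquivNat.symm n)) n :=
      Equiv.intEquivNat.surjective.iUnion_comp
        (fun n => disjointed (fun n : ℕ => X (Equiv.intEquivNat.symm n)) n)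
    rw [h1, iUnion_disjointed]
    exact Equiv.intEquivNat.symm.surjective.iUnion_comp X
  -- the charges
  set ω : ℤ → ℕ → Pl → ℝ≥0∞ := fun k j z => if j ∈ J then
    om (sl j) (k - (u : ℤ)) (k - (fl j : ℤ)) ((2 : ℝ) ^ k • cc j) θ m (Eg E D q k) (Xd k) z else 0 with hω
  have ωm : ∀ k j, Measurable (ω k j) := by
    intro k j
    rw [hω]
    by_cases hj : j ∈ J
    · simp only [hj, if_true]
      unfold om
      exact ((measurable_of_countable (Wc' (sl j) (k - (u : ℤ)) (k - (fl j : ℤ)) ((2 : ℝ) ^ k • cc j) θ m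
        (Eg E D q k) (Xd k))).comp (ix_meas (sl j) (k - (u : ℤ)) (k - (fl j : ℤ)))).indicator (hG k).1
    · simp only [hj, if_false]
      exact measurable_const
  have ωJ : ∀ k, ∀ j ∈ J, ω k j = om (sl j) (k - (u : ℤ)) (k - (fl j : ℤ)) ((2 : ℝ) ^ k • cc j) θ m
      (Eg E D q k) (Xd k) := by
    intro k j hj
    ext z
    simp only [hω, hj, if_true]
  have hsumJ : ∀ k (Y : Set Pl), ∑ j ∈ J, ∫⁻ x in Y, (H k j).indicator (1 : Pl → ℝ≥0∞) x =
      ∫⁻ x in Y, ct k x := by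
    intro k Y
    rw [lintegral_finsetSum _ (fun j _ => measurable_one.indicator (Hm k j))]
  refine ⟨ω, ⟨ωm, ?_, ?_, ?_, ?_⟩, ?_⟩
  · -- supp
    intro k j z hz
    by_cases hj : j ∈ J
    · refine ⟨hj, ?_⟩
      simp only [hω, hj, if_true] at hz
      unfold om at hz
      have hzG : z ∈ Eg E D q k := by
        by_contra h
        exact hz (Set.indicator_of_notMem h _)
      refine ⟨hzG, ?_⟩
      rw [Set.indicator_of_mem hzG] at hz
      unfold Wc' at hz
      by_contra h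
      rw [if_neg] at hz
      · exact hz rfl
      · intro h'
        refine h ?_
        show ENNReal.ofReal _ ≤ volume (_ ∩ RQ _ _ _ _)
        rw [RQ_eq]
        exact h'
    · simp only [hω, hj, if_false] at hz
      exact absurd rfl hz
  · -- cell
    intro k j z z' hz hz' hq
    by_cases hj : j ∈ J
    · simp only [hω, hj, if_true]
      unfold om
      rw [Set.indicator_of_mem hz, Set.indicator_of_mem hz']
      rw [RQ_eq, mem_cl] at hq
      rw [hq]
    · simp only [hω, hj, if_false]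
  · -- le
    intro k j z
    by_cases hj : j ∈ J
    · simp only [hω, hj, if_true]
      unfold om
      refine (Set.indicator_le_self' (fun _ _ => bot_le) z).trans ?_
      exact Wc_le _ _ _ _ _ _ _ _ hLGR hθ hm _
    · simp only [hω, hj, if_false]
      exact bot_le
  · -- hl
    intro b y
    set T : Set Pl := Sq y ((Cf + 11) * (2 : ℝ) ^ b) with hT
    have hr : 0 ≤ (Cf + 11) * (2 : ℝ) ^ b := by positivity
    have hTm : MeasurableSet T := (hPT.2.2.2.2.2.2.2 y _ hr).1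
    have hTv : volume T = ENNReal.ofReal (4 * ((Cf + 11) * (2 : ℝ) ^ b) ^ 2) := (hPT.2.2.2.2.2.2.2 y _ hr).2
    have h1 : ∀ k : ℤ, (if k ≤ b then ∑ j ∈ J, ∫⁻ z in DQ b y, ω k j z else 0) ≤
        70 * volume (Xd k ∩ T) := by
      intro k
      split_ifs with hkb
      · have h2 : ∀ j ∈ J, ∫⁻ z in DQ b y, ω k j z ≤ ENNReal.ofReal (35 / m) *
            ∫⁻ x in Xd k ∩ T, (H k j).indicator (1 : Pl → ℝ≥0∞) x := by
          intro j hj
          rw [ωJ k j hj]
          refine om_upper _ _ _ _ _ _ _ _ (hG k) hθ hm (DQ b y) T ?_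
          intro c z x hz hzc hx
          exact geo hPT Cf hCf (sl j) (hJ j hj).1 (cc j) (hJ j hj).2.1 u (fl j) (hJ j hj).2.2 k b hkb y c z x
            hz hzc hx
        refine (Finset.sum_le_sum h2).trans ?_
        rw [← Finset.mul_sum, hsumJ]
        have h3 : ∫⁻ x in Xd k ∩ T, ct k x ≤ ENNReal.ofReal (2 * m) * volume (Xd k ∩ T) := by
          have : ∫⁻ x in Xd k ∩ T, ct k x ≤ ∫⁻ x in Xd k ∩ T, ENNReal.ofReal (2 * m) :=
            setLIntegral_mono' ((Xdm k).inter hTm) (fun x hx => ((hXm k x).1 (XdX k hx.1)).2.le)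
          rwa [setLIntegral_const] at this
        refine (mul_le_mul' le_rfl h3).trans ?_
        rw [← mul_assoc, ← ENNReal.ofReal_mul (by positivity)]
        have : 35 / m * (2 * m) = 70 := by field_simp; norm_num
        rw [this, ENNReal.ofReal_ofNat]
      · exact bot_le
    refine (ENNReal.tsum_le_tsum h1).trans ?_
    rw [ENNReal.tsum_mul_left]
    have h4 : ∑' k, volume (Xd k ∩ T) ≤ volume T := by
      rw [← measure_iUnion (fun k k' hk => (Xdd hk).mono inter_subset_left inter_subset_left)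
        (fun k => (Xdm k).inter hTm)]
      exact measure_mono (iUnion_subset (fun k => inter_subset_right))
    refine (mul_le_mul' le_rfl h4).trans ?_
    rw [hTv]
    have : (70 : ℝ≥0∞) = ENNReal.ofReal 70 := by rw [ENNReal.ofReal_ofNat]
    rw [this, ← ENNReal.ofReal_mul (by norm_num)]
    refine le_of_eq ?_
    congr 1
    have h5 : (4 : ℝ) ^ b = ((2 : ℝ) ^ b) ^ 2 := by
      rw [← zpow_natCast, ← zpow_mul, mul_comm, zpow_mul]
      norm_num
    rw [h5]
    ring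
  · -- lower bound
    have h1 : ∫⁻ z, cg p u J ω z = ENNReal.ofReal ((2 : ℝ) ^ (-(p * u))) *
        ∑' k : ℤ, ∑ j ∈ J, ∫⁻ z, ω k j z := by
      unfold cg
      rw [lintegral_const_mul' _ _ ENNReal.ofReal_ne_top, lintegral_tsum]
      · congr 2
        ext k
        rw [lintegral_finsetSum _ (fun j _ => ωm k j)]
      · intro k
        exact (Finset.measurable_sum _ (fun j _ => ωm k j)).aemeasurable
    have h2 : ∀ k : ℤ, ENNReal.ofReal (3 / 4) * volume (Xd k) ≤ ∑ j ∈ J, ∫⁻ z, ω k j z := by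
      intro k
      have h3 : ∀ j ∈ J, ENNReal.ofReal (1 / m) * ∫⁻ x in Xd k, (H k j).indicator (1 : Pl → ℝ≥0∞) x ≤
          ∫⁻ z, ω k j z := by
        intro j hj
        rw [ωJ k j hj]
        exact om_lower _ _ _ _ _ _ _ _ (hG k) hθ hm
      refine le_trans ?_ (Finset.sum_le_sum h3)
      rw [← Finset.mul_sum, hsumJ]
      have h4 : ENNReal.ofReal (3 / 4 * m) * volume (Xd k) ≤ ∫⁻ x in Xd k, ct k x := by
        rw [← setLIntegral_const]
        exact setLIntegral_mono' (Xdm k) (fun x hx => ((hXm k x).1 (XdX k hx)).1)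
      refine le_trans ?_ (mul_le_mul' le_rfl h4)
      rw [← mul_assoc, ← ENNReal.ofReal_mul (by positivity)]
      have : 1 / m * (3 / 4 * m) = 3 / 4 := by field_simp
      rw [this]
    rw [h1]
    have h5 : volume (⋃ k : ℤ, Xk E u q J sl fl cc D θ m k) = ∑' k, volume (Xd k) := by
      have : (⋃ k : ℤ, Xk E u q J sl fl cc D θ m k) = ⋃ k, Xd k := XdU.symm
      rw [this, measure_iUnion Xdd Xdm]
    rw [h5, mul_comm (3 / 4 : ℝ), ENNReal.ofReal_mul (by positivity), mul_assoc, ← ENNReal.tsum_mul_left]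
    exact mul_le_mul' le_rfl (ENNReal.tsum_le_tsum h2)

end Pool.Agent.Helper34.ES
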