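import Pool.Agent.Helper85.ES.StI2

set_option autoImplicit false

open MeasureTheory Set Filter Topology
open scoped ENNReal RealInnerProductSpace

namespace Pool.Agent.Helper34.ES

open Pool.Agent.Helper85.ES Pool.Agent.Helper20.RG Pool.Agent.Helper20.RL
open Pool.Agent.Helper68.EP (Fb DQ3 Par Dat Sy q0 q1 DD Fo Rs)
open Pool.Agent.Helper61.EP (Nn D8 trS dat Yc)
open Pool.Agent.Helper68.ES (ag Eg th Rc hn Crit cr Lw)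
open Pool.Agent.Helper68.LM (Pl BB Bd Av HL ft fm DQ)

theorem osc_smul0 (a : ℝ) (x : Pl) : (a • x) 0 = a * x 0 := by simp

theorem osc_smul1 (a : ℝ) (x : Pl) : (a • x) 1 = a * x 1 := by simp

theorem osc_pr (s a : ℝ) (x : Pl) : pr s (a • x) = a * pr s x := by
  unfold pr
  rw [osc_smul0, osc_smul1]
  ring

theorem osc_div (a t : ℤ) (r : ℝ) : (2 : ℝ) ^ t * r / (2 : ℝ) ^ a = r / (2 : ℝ) ^ (a - t) := by
  have h2 : (2 : ℝ) ^ t ≠ 0 := (zpow_pos two_pos t).ne'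
  have h3 : (2 : ℝ) ^ a ≠ 0 := (zpow_pos two_pos a).ne'
  rw [zpow_sub₀ two_ne_zero]
  field_simp

theorem osc_RQ (s : ℝ) (a b t : ℤ) (y z : Pl) :
    (2 : ℝ) ^ t • z ∈ RQ s a b ((2 : ℝ) ^ t • y) ↔ z ∈ RQ s (a - t) (b - t) y := by
  unfold RQ
  simp only [mem_ofPred_eq, osc_smul0, osc_pr, osc_div]

theorem osc_Rich (r2 : ∀ (S : Set Pl) (t : ℤ), volume {x : Pl | (2 : ℝ) ^ t • x ∈ S} =
    ENNReal.ofReal ((4 : ℝ) ^ (-t)) * volume S) (F : Set Pl) (s : ℝ) (a b t : ℤ) (θ : ℝ) (y : Pl) :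
    Rich F s a b θ ((2 : ℝ) ^ t • y) ↔
      Rich {z : Pl | (2 : ℝ) ^ t • z ∈ F} s (a - t) (b - t) θ y := by
  unfold Rich
  have e : {z : Pl | (2 : ℝ) ^ t • z ∈ F} ∩ RQ s (a - t) (b - t) y =
      {x : Pl | (2 : ℝ) ^ t • x ∈ F ∩ RQ s a b ((2 : ℝ) ^ t • y)} := by
    ext z
    simp only [mem_inter_iff, mem_ofPred_eq, osc_RQ]
  rw [e, r2]
  have h4n : (0 : ℝ) < (4 : ℝ) ^ (-t) := zpow_pos (by norm_num) _
  have e2 : θ * (2 : ℝ) ^ (a - t + (b - t)) = (4 : ℝ) ^ (-t) * (θ * (2 : ℝ) ^ (a + b)) := by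
    have : (2 : ℝ) ^ (a - t + (b - t)) = (4 : ℝ) ^ (-t) * (2 : ℝ) ^ (a + b) := by
      have h : (4 : ℝ) ^ (-t) = (2 : ℝ) ^ (-t) * (2 : ℝ) ^ (-t) := by
        rw [← mul_zpow]
        norm_num
      rw [h, ← zpow_add₀ two_ne_zero, ← zpow_add₀ two_ne_zero]
      congr 1
      ring
    rw [this]
    ring
  rw [e2, ENNReal.ofReal_mul h4n.le]
  have hne : ENNReal.ofReal ((4 : ℝ) ^ (-t)) ≠ 0 := by
    rw [Ne, ENNReal.ofReal_eq_zero, not_le]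
    exact h4n
  exact (ENNReal.mul_le_mul_iff_right hne ENNReal.ofReal_ne_top).symm

theorem osc_Hit (s : ℝ) (c : Pl) (m u : ℕ) (k t : ℤ) (V : Set Pl) (x : Pl) :
    Hit s c m u (t + k) V ((2 : ℝ) ^ t • x) ↔
      Hit s c m u k {z : Pl | (2 : ℝ) ^ t • z ∈ V} x := by
  have h2 : (0 : ℝ) < (2 : ℝ) ^ t := zpow_pos two_pos t
  have e1 : (2 : ℝ) ^ t • x - (2 : ℝ) ^ (t + k) • c = (2 : ℝ) ^ t • (x - (2 : ℝ) ^ k • c) := by
    rw [zpow_add₀ two_ne_zero, smul_sub, smul_smul]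
  have e3 : ∀ n : ℤ, (2 : ℝ) ^ (t + k - n) = (2 : ℝ) ^ t * (2 : ℝ) ^ (k - n) := by
    intro n
    rw [← zpow_add₀ two_ne_zero]
    congr 1
    ring
  have key : ∀ y : Pl, (|((2 : ℝ) ^ t • x - (2 : ℝ) ^ (t + k) • c) 0 - ((2 : ℝ) ^ t • y) 0| ≤
        3 * (2 : ℝ) ^ (t + k - (u : ℤ)) ∧
      |pr s ((2 : ℝ) ^ t • x - (2 : ℝ) ^ (t + k) • c) - pr s ((2 : ℝ) ^ t • y)| ≤
        2 * (2 : ℝ) ^ (t + k - (m : ℤ))) ↔
      (|(x - (2 : ℝ) ^ k • c) 0 - y 0| ≤ 3 * (2 : ℝ) ^ (k - (u : ℤ)) ∧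
      |pr s (x - (2 : ℝ) ^ k • c) - pr s y| ≤ 2 * (2 : ℝ) ^ (k - (m : ℤ))) := by
    intro y
    rw [e1, osc_smul0, osc_smul0, osc_pr, osc_pr, ← mul_sub, ← mul_sub, abs_mul, abs_mul,
      abs_of_pos h2, e3, e3, mul_left_comm 3, mul_left_comm 2, mul_le_mul_iff_right₀ h2,
      mul_le_mul_iff_right₀ h2]
  constructor
  · rintro ⟨y, hy, h⟩
    have ey : (2 : ℝ) ^ t • ((2 : ℝ) ^ (-t) • y) = y := by
      rw [smul_smul, ← zpow_add₀ two_ne_zero]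
      simp
    refine ⟨(2 : ℝ) ^ (-t) • y, ?_, ?_⟩
    · show (2 : ℝ) ^ t • ((2 : ℝ) ^ (-t) • y) ∈ V
      rw [ey]
      exact hy
    · rw [← key, ey]
      exact h
  · rintro ⟨y, hy, h⟩
    exact ⟨(2 : ℝ) ^ t • y, hy, (key y).2 h⟩

theorem hOSC (hLRS : Pool.Agent.Helper20.RL.StLRS) (hOCE : Pool.Agent.Helper85.ES.StOCE) :
    Pool.Agent.Helper85.ES.StOSC := by
  intro A p s e ε e₂ Cf hA hSm hCf hε he₂
  obtain ⟨r1, r2, r3, r4⟩ := hLRS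
  obtain ⟨u₀, ε₃, C, ε', hε₃, hC, hε', hmain⟩ := hOCE A p s e ε e₂ Cf hA hSm hCf hε he₂
  refine ⟨u₀, ε₃, C, ε', hε₃, hC, hε', ?_⟩
  intro u q i t sl c m F hu hSlo hcm hq hpq hcr hor hF hD
  set F' : Set Pl := {z : Pl | (2 : ℝ) ^ t • z ∈ F} with hF'
  have h4 : (0 : ℝ) < (4 : ℝ) ^ t := zpow_pos (by norm_num) t
  have h4n : (0 : ℝ) < (4 : ℝ) ^ (-t) := zpow_pos (by norm_num) _
  have h44 : (4 : ℝ) ^ t * (4 : ℝ) ^ (-t) = 1 := by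
    rw [← zpow_add₀ (by norm_num : (4 : ℝ) ≠ 0)]; simp
  have hCtl : Ctl (D8 s u) F' := by
    intro y k
    have e1 : F' ∩ Sq y ((2 : ℝ) ^ k) =
        {x : Pl | (2 : ℝ) ^ t • x ∈ F ∩ Sq ((2 : ℝ) ^ t • y) ((2 : ℝ) ^ t * (2 : ℝ) ^ k)} := by
      have h := r4 y t ((2 : ℝ) ^ k)
      rw [← h]
      rfl
    rw [e1, r2]
    have e2 : (2 : ℝ) ^ t * (2 : ℝ) ^ k = (2 : ℝ) ^ (t + (k : ℤ)) := by
      rw [zpow_add₀ (by norm_num : (2 : ℝ) ≠ 0), zpow_natCast]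
    rw [e2]
    calc ENNReal.ofReal ((4 : ℝ) ^ (-t)) * volume (F ∩ Sq ((2 : ℝ) ^ t • y) ((2 : ℝ) ^ (t + (k : ℤ))))
        ≤ ENNReal.ofReal ((4 : ℝ) ^ (-t)) *
          ENNReal.ofReal (D8 s u * (4 : ℝ) ^ (t + (k : ℤ))) := by
          gcongr
          exact hD _ _ (by omega)
      _ = ENNReal.ofReal (D8 s u * (4 : ℝ) ^ k) := by
          rw [← ENNReal.ofReal_mul h4n.le]
          congr 1
          rw [zpow_add₀ (by norm_num : (4 : ℝ) ≠ 0), zpow_natCast]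
          calc (4 : ℝ) ^ (-t) * (D8 s u * ((4 : ℝ) ^ t * (4 : ℝ) ^ k))
              = ((4 : ℝ) ^ t * (4 : ℝ) ^ (-t)) * (D8 s u * (4 : ℝ) ^ k) := by ring
            _ = D8 s u * (4 : ℝ) ^ k := by rw [h44, one_mul]
  have hres := hmain u q i sl c m F' hu hSlo hcm hq hpq hcr hor (r3 F t hF) hCtl
  have hvF : volume F' = ENNReal.ofReal ((4 : ℝ) ^ (-t)) * volume F := r2 F t
  have hvS : ∀ k : ℕ, volume {x | (2 : ℝ) ^ ((i : ℝ) - ε₃ * u) ≤ ({j : ℕ | j < 2 ^ u ∧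
        Hit (sl j) (c j) (m j) u k
          {y | Rich F' (sl j) ((k : ℤ) - (u : ℤ)) ((k : ℤ) - (m j : ℤ)) (th i) y} x}.ncard : ℝ)} =
      ENNReal.ofReal ((4 : ℝ) ^ (-t)) * volume {x | (2 : ℝ) ^ ((i : ℝ) - ε₃ * u) ≤
        ({j : ℕ | j < 2 ^ u ∧ Hit (sl j) (c j) (m j) u (t + (k : ℤ))
          {y | Rich F (sl j) (t + (k : ℤ) - (u : ℤ)) (t + (k : ℤ) - (m j : ℤ)) (th i) y} x}.ncard : ℝ)} := by
    intro k
    rw [← r2]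
    congr 1
    ext x
    simp only [mem_ofPred_eq]
    have e : {j : ℕ | j < 2 ^ u ∧ Hit (sl j) (c j) (m j) u (t + (k : ℤ))
          {y | Rich F (sl j) (t + (k : ℤ) - (u : ℤ)) (t + (k : ℤ) - (m j : ℤ)) (th i) y}
            ((2 : ℝ) ^ t • x)} =
        {j : ℕ | j < 2 ^ u ∧ Hit (sl j) (c j) (m j) u k
          {y | Rich F' (sl j) ((k : ℤ) - (u : ℤ)) ((k : ℤ) - (m j : ℤ)) (th i) y} x} := by
      ext j
      simp only [mem_ofPred_eq]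
      rw [osc_Hit]
      simp only [mem_ofPred_eq, osc_Rich r2]
      have ea : t + (k : ℤ) - (u : ℤ) - t = (k : ℤ) - (u : ℤ) := by ring
      have eb : t + (k : ℤ) - (m j : ℤ) - t = (k : ℤ) - (m j : ℤ) := by ring
      rw [ea, eb]
    rw [e]
  rw [Finset.sum_congr rfl (fun k _ => hvS k), ← Finset.mul_sum, hvF] at hres
  -- multiply by `4^t`
  have h1 : ENNReal.ofReal ((4 : ℝ) ^ t) * ENNReal.ofReal ((4 : ℝ) ^ (-t)) = 1 := by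
    rw [← ENNReal.ofReal_mul h4.le, h44, ENNReal.ofReal_one]
  have hres2 := mul_le_mul' (le_refl (ENNReal.ofReal ((4 : ℝ) ^ t))) hres
  rw [← mul_assoc, h1, one_mul] at hres2
  refine hres2.trans (le_of_eq ?_)
  calc ENNReal.ofReal ((4 : ℝ) ^ t) * (ENNReal.ofReal (C * (2 : ℝ) ^ ((p - ε') * u)) *
        (ENNReal.ofReal ((4 : ℝ) ^ (-t)) * volume F))
      = (ENNReal.ofReal ((4 : ℝ) ^ t) * ENNReal.ofReal ((4 : ℝ) ^ (-t))) *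
        (ENNReal.ofReal (C * (2 : ℝ) ^ ((p - ε') * u)) * volume F) := by ring
    _ = ENNReal.ofReal (C * (2 : ℝ) ^ ((p - ε') * u)) * volume F := by rw [h1, one_mul]

end Pool.Agent.Helper34.ES
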